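import Mathlib
import Pool.Agent.Lib.MP_2c929a_lc.Main

/-!
# `IOE(2^(2^n))` and `IOE(2^(2^(n^k)))` have the same Muchnik degree

For every `k ≥ 2` the computable function `f(n) = 2^(2^(n^k))` eventually exceeds `2^(a^n)` for
every `a`, and `IOE(2^(2^n))` is Muchnik equivalent to `IOE(f)`.
-/

namespace Pool.Agent.Results.MP_2c929a_lc.PolyExp

open Filter

/-- `IOE(h)`: the mass problem of all total functions `f : ℕ → ℕ` such that for every computable
function `r` with `r n < h n` for all `n` there are infinitely many `n` with `f n = r n`. -/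
def IOE (h : ℕ → ℕ) : Set (ℕ → ℕ) :=
  {f | ∀ r : ℕ → ℕ, Computable r → (∀ n, r n < h n) → ∃ᶠ n in atTop, f n = r n}

/-- Muchnik (weak) reducibility `B ≤_W C`: every member of `C` Turing-computes a member of `B`. -/
def MuchnikLE (B C : Set (ℕ → ℕ)) : Prop :=
  ∀ g ∈ C, ∃ f ∈ B, TuringReducible (f : ℕ →. ℕ) (g : ℕ →. ℕ)

/-- Muchnik equivalence `B ≡_W C`. -/
def MuchnikEquiv (B C : Set (ℕ → ℕ)) : Prop := MuchnikLE B C ∧ MuchnikLE C B

open Pool.Agent.Lib.MP_2c929a_lc

/-- Sanity check: `IOE(h)` is nonempty, so it is a mass problem. -/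
theorem IOE_nonempty (h : ℕ → ℕ) : (IOE h).Nonempty := by
  classical
  refine ⟨fun n => if hd : ((Denumerable.ofNat Nat.Partrec.Code n.unpair.1).eval n).Dom
    then ((Denumerable.ofNat Nat.Partrec.Code n.unpair.1).eval n).get hd else 0, ?_⟩
  intro r hr _
  obtain ⟨c, hc⟩ := Nat.Partrec.Code.exists_code.1 (Partrec.nat_iff.1 hr)
  rw [Filter.frequently_atTop]
  intro a
  refine ⟨Nat.pair (Encodable.encode c) a, Nat.right_le_pair _ _, ?_⟩
  simp [hc]

theorem MuchnikLE.trans {A B C : Set (ℕ → ℕ)} (h1 : MuchnikLE A B) (h2 : MuchnikLE B C) :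
    MuchnikLE A C := by
  intro g hg
  obtain ⟨f, hf, hfg⟩ := h2 g hg
  obtain ⟨e, he, hef⟩ := h1 f hf
  exact ⟨e, he, hef.trans hfg⟩

theorem MuchnikLE.of_subset {A B : Set (ℕ → ℕ)} (h : B ⊆ A) : MuchnikLE A B :=
  fun g hg => ⟨g, h hg, TuringReducible.refl _⟩

theorem IOE_anti {g h : ℕ → ℕ} (hgh : ∀ᶠ n in atTop, g n ≤ h n) (hh : ∀ n, 0 < h n) :
    IOE h ⊆ IOE g := by
  intro f hf r hr hrg
  obtain ⟨N, hN⟩ := Filter.eventually_atTop.1 hgh
  set r' : ℕ → ℕ := fun n => if n < N then 0 else r n with hr'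
  have hr'c : Computable r' := by
    have hp : PrimrecPred (fun n => n < N) :=
      PrimrecRel.comp Primrec.nat_lt Primrec.id (Primrec.const N)
    classical
    have := Computable.cond (Primrec.to_comp hp.decide) (Computable.const 0) hr
    refine this.of_eq ?_
    intro n
    simp only [hr']
    by_cases hn : n < N <;> simp [hn]
  have hr'h : ∀ n, r' n < h n := by
    intro n
    simp only [hr']
    split_ifs with hn
    · exact hh n
    · exact lt_of_lt_of_le (hrg n) (hN n (by omega))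
  have h1 := hf r' hr'c hr'h
  have h2 : ∀ᶠ n in atTop, r' n = r n := by
    filter_upwards [eventually_ge_atTop N] with n hn
    simp [hr', not_lt.2 hn]
  exact (h1.and_eventually h2).mono fun n hn => hn.1.trans hn.2

/-- the auxiliary bounds, constant on dyadic blocks -/
def E (p q n : ℕ) : ℕ := 2 ^ (2 ^ (2 ^ (p * Nat.log 2 n - q)))

theorem E_pos (p q n : ℕ) : 0 < E p q n := by unfold E; positivity

theorem E_base : MuchnikLE (IOE (E 1 0)) (IOE (fun n => 2 ^ (2 ^ n))) := by
  apply MuchnikLE.of_subset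
  apply IOE_anti
  · filter_upwards [eventually_ge_atTop 1] with n hn
    unfold E
    apply Nat.pow_le_pow_right (by norm_num)
    apply Nat.pow_le_pow_right (by norm_num)
    rw [one_mul, Nat.sub_zero]
    exact Nat.pow_log_le_self 2 (by omega)
  · intro n; positivity

theorem E_step (p q : ℕ) (hp : 1 ≤ p) :
    MuchnikLE (IOE (E (2 * p) (2 * p + q + 1))) (IOE (E p q)) := by
  intro f hf
  set B : ℕ → ℕ := fun i => 2 ^ (2 ^ (2 ^ (2 * p * i - (2 * p + q + 1)))) with hB
  have hBc : Computable B := by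
    have h2 : Primrec (fun m : ℕ => 2 ^ m) := primrec_pow.comp (Primrec.const 2) Primrec.id
    have h3 : Primrec (fun i : ℕ => 2 * p * i - (2 * p + q + 1)) :=
      Primrec.nat_sub.comp (Primrec.nat_mul.comp (Primrec.const _) Primrec.id) (Primrec.const _)
    exact (h2.comp (h2.comp (h2.comp h3))).to_comp
  have key := step (E p q) (E (2 * p) (2 * p + q + 1)) B hBc (fun n _ => le_of_eq rfl) (q + 10)
    ?_ (E_pos p q) f hf
  · obtain ⟨t, ht, htf⟩ := key
    exact ⟨t, ht, htf⟩
  · intro l hl hi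
    set i := Nat.log 4 l + 1 with hidef
    have hl4 : 4 ^ (i - 1) ≤ l := by
      rw [hidef, Nat.add_sub_cancel]; exact Nat.pow_log_le_self 4 hl
    have hlog : 2 * (i - 1) ≤ Nat.log 2 l := by
      rw [Nat.le_log_iff_pow_le (by norm_num) hl, pow_mul]
      norm_num
      exact hl4
    simp only [hB, E]
    rw [← pow_mul]
    apply Nat.pow_le_pow_right (by norm_num)
    have e1 : 2 * 2 ^ i = 2 ^ (i + 1) := by rw [pow_succ]; ring
    rw [e1, ← pow_add]
    apply Nat.pow_le_pow_right (by norm_num)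
    obtain ⟨j, hj⟩ : ∃ j, i = j + 1 := ⟨i - 1, by omega⟩
    rw [hj] at hlog hi ⊢
    rw [Nat.add_sub_cancel] at hlog
    have hA : 2 * p * (j + 1) - (2 * p + q + 1) = p * (2 * j) - q - 1 := by
      have : 2 * p * (j + 1) = p * (2 * j) + 2 * p := by ring
      rw [this]; omega
    rw [hA]
    have hpj : 2 * j ≤ p * (2 * j) := Nat.le_mul_of_pos_left _ hp
    obtain ⟨m, hm⟩ : ∃ m, p * (2 * j) - q = m + 1 := ⟨p * (2 * j) - q - 1, by omega⟩
    have hmj : j + 3 ≤ m := by omega
    rw [hm, Nat.add_sub_cancel]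
    have hm2 : m + 1 ≤ p * Nat.log 2 l - q := by
      rw [← hm]
      exact Nat.sub_le_sub_right (Nat.mul_le_mul_left _ hlog) _
    have h3 : m < 2 ^ m := Nat.lt_two_pow_self
    calc 2 ^ m + (j + 1 + 1) ≤ 2 ^ m + 2 ^ m := by omega
      _ = 2 ^ (m + 1) := by rw [pow_succ]; ring
      _ ≤ 2 ^ (p * Nat.log 2 l - q) := Nat.pow_le_pow_right (by norm_num) hm2

theorem E_iter (t : ℕ) : ∃ q, MuchnikLE (IOE (E (2 ^ t) q)) (IOE (fun n => 2 ^ (2 ^ n))) := by
  induction t with
  | zero => exact ⟨0, by simpa using E_base⟩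
  | succ t ih =>
    obtain ⟨q, hq⟩ := ih
    refine ⟨2 * 2 ^ t + q + 1, ?_⟩
    have h := E_step (2 ^ t) q (Nat.one_le_two_pow)
    rw [pow_succ, mul_comm (2 ^ t) 2]
    exact h.trans hq

theorem le_of_poly (k : ℕ) :
    MuchnikLE (IOE (fun n => 2 ^ (2 ^ (n ^ k)))) (IOE (fun n => 2 ^ (2 ^ n))) := by
  obtain ⟨q, hq⟩ := E_iter k
  refine MuchnikLE.trans ?_ hq
  apply MuchnikLE.of_subset
  apply IOE_anti _ (E_pos _ _)
  filter_upwards [eventually_ge_atTop (2 ^ (k + q))] with n hn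
  unfold E
  apply Nat.pow_le_pow_right (by norm_num)
  apply Nat.pow_le_pow_right (by norm_num)
  have hn0 : n ≠ 0 := by
    have : 0 < 2 ^ (k + q) := by positivity
    omega
  have hL : k + q ≤ Nat.log 2 n := (Nat.le_log_iff_pow_le (by norm_num) hn0).2 hn
  have hk : k + 1 ≤ 2 ^ k := Nat.lt_two_pow_self
  calc n ^ k ≤ (2 ^ (Nat.log 2 n + 1)) ^ k :=
        Nat.pow_le_pow_left (Nat.lt_pow_succ_log_self (by norm_num) n).le k
    _ = 2 ^ ((Nat.log 2 n + 1) * k) := by rw [← pow_mul]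
    _ ≤ 2 ^ (2 ^ k * Nat.log 2 n - q) := by
        apply Nat.pow_le_pow_right (by norm_num)
        have h1 : (k + 1) * Nat.log 2 n ≤ 2 ^ k * Nat.log 2 n := Nat.mul_le_mul_right _ hk
        have h2 : (k + 1) * Nat.log 2 n = (Nat.log 2 n + 1) * k + (Nat.log 2 n - k) := by
          have : (k + 1) * Nat.log 2 n = (Nat.log 2 n) * k + Nat.log 2 n := by ring
          have h3 : (Nat.log 2 n + 1) * k = (Nat.log 2 n) * k + k := by ring
          omega
        omega

/-- **Answer to Q1 (yes).**  For every `k ≥ 2` the computable function `f(n) = 2^(2^(n^k))`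
eventually exceeds `2^(a^n)` for each fixed `a`, and `IOE(2^(2^n)) ≡_W IOE(f)`. -/
theorem result (k : ℕ) (hk : 2 ≤ k) :
    Computable (fun n : ℕ => 2 ^ (2 ^ (n ^ k))) ∧
    (∀ a : ℕ, ∀ᶠ n : ℕ in atTop, 2 ^ (2 ^ (n ^ k)) > 2 ^ (a ^ n)) ∧
    MuchnikEquiv (IOE (fun n => 2 ^ (2 ^ n))) (IOE (fun n => 2 ^ (2 ^ (n ^ k)))) := by
  refine ⟨?_, ?_, ?_, le_of_poly k⟩
  · have h2 : Primrec (fun m : ℕ => 2 ^ m) := primrec_pow.comp (Primrec.const 2) Primrec.id
    have h3 : Primrec (fun n : ℕ => n ^ k) := primrec_pow.comp Primrec.id (Primrec.const k)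
    exact (h2.comp (h2.comp h3)).to_comp
  · intro a
    filter_upwards [eventually_ge_atTop (a + 1)] with n hn
    apply Nat.pow_lt_pow_right (by norm_num)
    calc a ^ n < (2 ^ a) ^ n := Nat.pow_lt_pow_left Nat.lt_two_pow_self (by omega)
      _ = 2 ^ (a * n) := by rw [← pow_mul]
      _ ≤ 2 ^ (n ^ 2) := by
          apply Nat.pow_le_pow_right (by norm_num)
          rw [pow_two]
          exact Nat.mul_le_mul_right _ (by omega)
      _ ≤ 2 ^ (n ^ k) := by
          apply Nat.pow_le_pow_right (by norm_num)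
          exact Nat.pow_le_pow_right (by omega) hk
  · apply MuchnikLE.of_subset
    apply IOE_anti
    · filter_upwards [eventually_ge_atTop 1] with n hn
      apply Nat.pow_le_pow_right (by norm_num)
      apply Nat.pow_le_pow_right (by norm_num)
      exact Nat.le_self_pow (by omega) n
    · intro n; positivity

end Pool.Agent.Results.MP_2c929a_lc.PolyExp
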